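import Pool.Agent.W331.CR.All

/-!
# Continuum many finitely generated groups of every finite regularity which are not smooth

The groups `Gam h y e` of the library `W331.CR` depend on a function `e : ℕ → ℕ` which only has to
be large.  Two of them with different exponents are different as marked groups, since the
relations for two different exponents together kill `y`; as a countable group has only countably
many markings, there are continuum many isomorphism classes.
-/

set_option autoImplicit false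

open Set Function Cardinal
open scoped ContDiff

namespace Pool.Agent.Y122.CR

open Pool.Agent.W331.CR

/-- relations are preserved by homomorphisms -/
lemma rel_map {G G' : Type*} [Group G] [Group G'] (φ : G →* G')
    {e : ℕ → ℕ} {a b h y f : G} (r : Rel84 e a b h y f) :
    Rel84 e (φ a) (φ b) (φ h) (φ y) (φ f) where
  r0 := by simpa using congrArg φ r.r0
  ra := fun j hj => by
    have := r.ra j hj
    exact ⟨by simpa using this.1.map φ, by simpa using this.2.map φ⟩
  rb := fun j hj => by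
    have := r.rb j hj
    exact ⟨by simpa using this.1.map φ, by simpa using this.2.map φ⟩
  wa := fun j hj => by
    have := r.wa j hj
    exact ⟨by simpa using this.1.map φ, by simpa using this.2.map φ⟩
  wb := fun j hj => by
    have := r.wb j hj
    exact ⟨by simpa using this.1.map φ, by simpa using this.2.map φ⟩
  wv := by
    rintro j i hj hi v rfl
    have := r.wv j i hj hi _ rfl
    exact ⟨by simpa using this.1.map φ, by simpa using this.2.map φ⟩
  rf := by
    rintro j i hj hi v F rfl rfl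
    have := r.rf j i hj hi _ _ rfl rfl
    exact ⟨by simpa using this.1.map φ, by simpa using this.2.1.map φ,
      by simpa using this.2.2.map φ⟩

/-- the algebra behind the distinction of the markings -/
lemma kill {G : Type*} [Group G] {h y F : G} {E : ℕ} (h0 : h * y * h⁻¹ = y ^ 2)
    (h1 : Commute (F ^ (2 ^ E) * y⁻¹) h) (h2 : Commute (F ^ (2 ^ (E + 1)) * y⁻¹) h)
    (h3 : Commute F y) : y = 1 := by
  have hFy : Commute (F ^ (2 ^ E)) y := h3.pow_left _
  -- `A = F ^ 2 ^ E * y⁻¹`, then `F ^ 2 ^ (E+1) * y⁻¹ = A ^ 2 * y`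
  have key : F ^ (2 ^ (E + 1)) * y⁻¹ = (F ^ (2 ^ E) * y⁻¹) ^ 2 * y := by
    have e1 : (F ^ (2 ^ E) * y⁻¹) ^ 2 = (F ^ (2 ^ E)) ^ 2 * (y⁻¹) ^ 2 :=
      (hFy.inv_right).mul_pow 2
    rw [e1, ← pow_mul, ← pow_succ, mul_assoc]
    congr 1
    group
  have h4 : Commute y h := by
    rw [key] at h2
    have h5 : Commute ((F ^ (2 ^ E) * y⁻¹) ^ 2) h := h1.pow_left 2
    have h6 : y = ((F ^ (2 ^ E) * y⁻¹) ^ 2)⁻¹ * ((F ^ (2 ^ E) * y⁻¹) ^ 2 * y) := by group
    rw [h6]
    exact h5.inv_left.mul_left h2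
  have h7 : h * y * h⁻¹ = y := by
    rw [← h4.eq]; group
  rw [h7, pow_two] at h0
  exact (mul_eq_left (a := y)).1 h0.symm

lemma rel_exp {G : Type*} [Group G] {e e' : ℕ → ℕ} {a b h y f : G}
    (r : Rel84 e a b h y f) (r' : Rel84 e' a b h y f) (j : ℕ) (hj : 1 ≤ j) (hE : e' j = e j + 1) :
    y = 1 := by
  obtain ⟨h1, -, h3⟩ := r.rf j 1 hj le_rfl _ _ rfl rfl
  obtain ⟨h2, -, -⟩ := r'.rf j 1 hj le_rfl _ _ rfl rfl
  rw [mul_one] at h1 h2
  rw [hE] at h2
  exact kill r.r0 h1 h2 h3

/-- the family of groups with their markings -/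
theorem family : ∃ (G : (ℕ → Bool) → Type) (_ : ∀ s, Group (G s)) (e : (ℕ → Bool) → ℕ → ℕ)
    (a b h y f : ∀ s, G s),
    (∀ s, Rel84 (e s) (a s) (b s) (h s) (y s) (f s) ∧ y s ≠ 1 ∧ Group.FG (G s) ∧
      ∀ k : ℕ, ∃ φ : G s →* CS k, Injective φ) ∧
    ∀ s t, s ≠ t → ∀ φ : G s ≃* G t, φ (a s) = a t → φ (b s) = b t → φ (h s) = h t →
      φ (y s) = y t → φ (f s) = f t → False := by
  obtain ⟨-, -, h, y, H, -⟩ := s_flataff
  have := fun k => t_emb h y H k
  choose Q hQ using this
  set e : (ℕ → Bool) → ℕ → ℕ := fun s j =>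
    1 + ∑ k ∈ Finset.range (j + 1), Q k j + (if s (j - 1) then 1 else 0) with he
  have hr := fun s => s_rel84 s_fTau h y H (e s)
  have mem : ∀ s, ∀ g ∈ ({gA, gB, gH h, gY y, gF y (e s)} : Set (Equiv.Perm (Ix × ℝ))),
      g ∈ Gam h y (e s) := fun s g hg => Subgroup.subset_closure hg
  have hrel : ∀ s, Rel84 (G := Gam h y (e s)) (e s) ⟨gA, mem s _ (by simp)⟩
      ⟨gB, mem s _ (by simp)⟩ ⟨gH h, mem s _ (by simp)⟩ ⟨gY y, mem s _ (by simp)⟩
      ⟨gF y (e s), mem s _ (by simp)⟩ := fun s =>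
    Rel84.of_map (Gam h y (e s)).subtype Subtype.coe_injective (hr s).1
  have hne : ∀ s, (⟨gY y, mem s _ (by simp)⟩ : Gam h y (e s)) ≠ 1 := fun s h' =>
    (hr s).2 (congrArg Subtype.val h')
  refine ⟨fun s => Gam h y (e s), fun s => inferInstance, e, fun s => ⟨gA, mem s _ (by simp)⟩,
    fun s => ⟨gB, mem s _ (by simp)⟩, fun s => ⟨gH h, mem s _ (by simp)⟩,
    fun s => ⟨gY y, mem s _ (by simp)⟩, fun s => ⟨gF y (e s), mem s _ (by simp)⟩,
    fun s => ⟨hrel s, hne s, ?_, fun k => ?_⟩, ?_⟩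
  · rw [Group.fg_iff_subgroup_fg, Subgroup.fg_iff]
    exact ⟨_, rfl, by simp⟩
  · refine hQ k (e s) (fun j => by simp only [he]; omega) (fun j hj => ?_)
    have : Q k j ≤ ∑ k ∈ Finset.range (j + 1), Q k j :=
      Finset.single_le_sum (f := fun k => Q k j) (fun _ _ => Nat.zero_le _)
        (Finset.mem_range.2 (by omega))
    simp only [he]
    omega
  · intro s t hst φ h1 h2 h3 h4 h5
    obtain ⟨i, hi⟩ : ∃ i, s i ≠ t i := by
      by_contra hcon
      push Not at hcon
      exact hst (funext hcon)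
    have r1 := rel_map φ.toMonoidHom (hrel s)
    simp only [MulEquiv.toMonoidHom_eq_coe, MonoidHom.coe_coe] at r1
    rw [h1, h2, h3, h4, h5] at r1
    have r2 := hrel t
    have hj : 1 ≤ i + 1 := by omega
    cases hs : s i <;> cases ht : t i
    · exact hi (by rw [hs, ht])
    · refine hne t (rel_exp r1 r2 (i + 1) hj ?_)
      simp only [he, Nat.add_sub_cancel, hs, ht]
      simp
    · refine hne t (rel_exp r2 r1 (i + 1) hj ?_)
      simp only [he, Nat.add_sub_cancel, hs, ht]
      simp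
    · exact hi (by rw [hs, ht])

/-- counting: a family of countable marked groups indexed by a set of the size of the continuum,
which are pairwise different as marked groups, contains continuum many pairwise non-isomorphic
groups. -/
theorem select {X : Type} (hX : 𝔠 ≤ #X) (G : X → Type) [∀ s, Group (G s)]
    (hc : ∀ s, Countable (G s)) (a : ∀ s, Fin 5 → G s)
    (hd : ∀ s t, s ≠ t → ∀ φ : G s ≃* G t, (∀ i, φ (a s i) = a t i) → False) :
    ∃ u : ℝ → X, ∀ r r', r ≠ r' → IsEmpty (G (u r) ≃* G (u r')) := by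
  classical
  let st : Setoid X :=
    { r := fun s t => Nonempty (G s ≃* G t)
      iseqv := ⟨fun s => ⟨MulEquiv.refl _⟩, fun ⟨φ⟩ => ⟨φ.symm⟩, fun ⟨φ⟩ ⟨ψ⟩ => ⟨φ.trans ψ⟩⟩ }
  -- the classes are countable
  have hcl : ∀ q : Quotient st, Countable {s : X // Quotient.mk st s = q} := by
    intro q
    obtain ⟨t, rfl⟩ := Quotient.exists_rep q
    have hφ : ∀ s : {s : X // Quotient.mk st s = Quotient.mk st t}, Nonempty (G s.1 ≃* G t) :=
      fun s => Quotient.exact s.2
    have : Countable (Fin 5 → G t) := by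
      haveI := hc t
      infer_instance
    refine Function.Injective.countable (β := Fin 5 → G t)
      (f := fun s i => (hφ s).some (a s.1 i)) ?_
    intro s s' hss
    by_contra hne
    refine hd s.1 s'.1 (fun h => hne (Subtype.ext h)) ((hφ s).some.trans (hφ s').some.symm) ?_
    intro i
    have := congrFun hss i
    simp only at this
    rw [MulEquiv.trans_apply, this, MulEquiv.symm_apply_apply]
  have h1 : #X ≤ #(Quotient st) * ℵ₀ := by
    have e1 : #X = #(Σ q : Quotient st, {s : X // Quotient.mk st s = q}) :=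
      (Cardinal.mk_congr (Equiv.sigmaFiberEquiv (Quotient.mk st))).symm
    rw [e1, Cardinal.mk_sigma]
    refine (Cardinal.sum_le_sum _ (fun _ => ℵ₀) fun q => ?_).trans ?_
    · haveI := hcl q
      exact Cardinal.mk_le_aleph0
    · rw [Cardinal.sum_const']
  have h2 : 𝔠 ≤ #(Quotient st) := by
    by_contra hlt
    push Not at hlt
    have h3 : 𝔠 ≤ #(Quotient st) * ℵ₀ := hX.trans h1
    have h4 : #(Quotient st) * ℵ₀ < 𝔠 :=
      Cardinal.mul_lt_of_lt Cardinal.aleph0_le_continuum hlt Cardinal.aleph0_lt_continuum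
    exact absurd h3 (not_le.2 h4)
  have h5 : #ℝ ≤ #(Quotient st) := by rw [Cardinal.mk_real]; exact h2
  obtain ⟨g⟩ := (Cardinal.le_def _ _).1 h5
  refine ⟨fun r => (g r).out, fun r r' hrr => ⟨fun φ => hrr (g.injective ?_)⟩⟩
  have : (g r).out ≈ (g r').out := ⟨φ⟩
  have h6 := Quotient.sound this
  rwa [Quotient.out_eq, Quotient.out_eq] at h6

/-- every homomorphism to the smooth diffeomorphisms kills `y` -/
lemma killI {G : Type} [Group G] {e : ℕ → ℕ} {a b h y f : G} (r : Rel84 e a b h y f)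
    (φ : G →* DiffI ∞) : φ y = 1 := by
  by_contra hne
  have r' := rel_map φ.rangeRestrict r
  have hne' : φ.rangeRestrict y ≠ 1 := fun h' => hne (congrArg Subtype.val h')
  exact s_no84I t_rigid84 s_setupI e φ.range _ _ _ _ _ r' hne'
    ⟨φ.range.subtype, Subtype.coe_injective⟩

lemma killS {G : Type} [Group G] {e : ℕ → ℕ} {a b h y f : G} (r : Rel84 e a b h y f)
    (φ : G →* DiffS ∞) : φ y = 1 := by
  by_contra hne
  have r' := rel_map φ.rangeRestrict r
  have hne' : φ.rangeRestrict y ≠ 1 := fun h' => hne (congrArg Subtype.val h')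
  exact s_no84S t_rigid84 s_liftcomm s_liftbs s_setupS e φ.range _ _ _ _ _ r' hne'
    ⟨φ.range.subtype, Subtype.coe_injective⟩

/-- the final theorem -/
theorem many : ∃ (G : ℝ → Type) (_ : ∀ r, Group (G r)),
    (∀ r, Group.FG (G r) ∧
      (∀ k : ℕ, (∃ φ : G r →* DiffI k, Injective φ) ∧ (∃ φ : G r →* DiffS k, Injective φ) ∧
        ∃ φ : G r →* CS k, Injective φ) ∧
      ∃ y : G r, y ≠ 1 ∧ (∀ φ : G r →* DiffI ∞, φ y = 1) ∧ (∀ φ : G r →* DiffS ∞, φ y = 1)) ∧
    ∀ r r' : ℝ, r ≠ r' → IsEmpty (G r ≃* G r') := by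
  obtain ⟨G, hG, e, a, b, h, y, f, h1, h2⟩ := family
  have hc : ∀ s, Countable (G s) := by
    intro s
    obtain ⟨S, _, ρ, hρ⟩ := Group.fg_iff_exists_freeGroup_hom_surjective_finite.mp (h1 s).2.2.1
    exact hρ.countable
  have hX : 𝔠 ≤ #(ℕ → Bool) := by
    simp
  obtain ⟨u, hu⟩ := select hX G hc (fun s => ![a s, b s, h s, y s, f s]) (by
    intro s t hst φ hφ
    exact h2 s t hst φ (hφ 0) (hφ 1) (hφ 2) (hφ 3) (hφ 4))
  refine ⟨fun r => G (u r), fun r => hG (u r), fun r => ?_, hu⟩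
  obtain ⟨r1, r2, r3, r4⟩ := h1 (u r)
  refine ⟨r3, fun k => ?_, y (u r), r2, fun φ => killI r1 φ, fun φ => killS r1 φ⟩
  obtain ⟨φ, hφ⟩ := r4 k
  obtain ⟨ψ, hψ⟩ := csI s_toI k
  obtain ⟨χ, hχ⟩ := csS s_toS k
  exact ⟨⟨ψ.comp φ, hψ.comp hφ⟩, ⟨χ.comp φ, hχ.comp hφ⟩, φ, hφ⟩

end Pool.Agent.Y122.CR
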